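import Mathlib
import Pool.Agent.Y852.NL.Basic

/-!
# Counterexamples below `L¹` for every gauge, on every interval
-/

set_option autoImplicit false

open MeasureTheory Set Filter Topology
open scoped ENNReal

namespace Pool.Agent.Results.MP_1dbcb3_an.AllGauges

open Pool.Agent.Y852.NL

/-- The functional `F_ω(v,(a,b)) = ∬_{(a,b)²} ω(|v(y)-v(x)|/|y-x|) dx dy / |y-x|`. -/
noncomputable def F (ω : ℝ → ℝ) (v : ℝ → ℝ) (a b : ℝ) : ℝ≥0∞ :=
  ∫⁻ x in Ioo a b, ∫⁻ y in Ioo a b, ENNReal.ofReal (ω (|v y - v x| / |y - x|) / |y - x|)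

lemma exists_min (f : ℕ → ℝ) (hf : ∀ k, 0 < f k) (n : ℕ) :
    ∃ c : ℝ, 0 < c ∧ c ≤ 1 ∧ ∀ k ≤ n, c ≤ f k := by
  induction n with
  | zero =>
    refine ⟨min 1 (f 0), lt_min one_pos (hf 0), min_le_left _ _, fun k hk => ?_⟩
    obtain rfl : k = 0 := by omega
    exact min_le_right _ _
  | succ n ih =>
    obtain ⟨c, h0, h1, h2⟩ := ih
    refine ⟨min c (f (n + 1)), lt_min h0 (hf _), (min_le_left _ _).trans h1, fun k hk => ?_⟩
    rcases Nat.lt_or_ge n k with h | h
    · obtain rfl : k = n + 1 := by omega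
      exact min_le_right _ _
    · exact (min_le_left _ _).trans (h2 k h)

section

variable (P : Pm)

lemma exists_psi : ∃ ψ : C(ℝ, ℝ), ∀ t, ψ t ∈ {c : ℝ | 0 < c ∧ c ≤ 1 ∧ c ≤ r P 0 ∧
    ∀ K, U P K / (2 * P.L) ≤ t → c ≤ r P K} := by
  apply exists_continuous_forall_mem_convex_of_local_const
  · intro t
    apply Set.OrdConnected.convex
    constructor
    rintro x ⟨hx1, hx2, hx3, hx4⟩ y ⟨hy1, hy2, hy3, hy4⟩ z ⟨hz1, hz2⟩
    exact ⟨by linarith, by linarith, by linarith, fun K hK => hz2.trans (hy4 K hK)⟩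
  · intro x
    obtain ⟨K0, hK0⟩ := exists_nat_gt (2 * P.L * (x + 1))
    have hL := L0 P
    have hU : x + 1 < U P K0 / (2 * P.L) := by
      rw [lt_div_iff₀ (by positivity)]
      have h1 := U_ge P K0
      have h2 : (K0 : ℝ) < (4:ℝ) ^ (K0 + 1) := by
        have h3 : K0 < 4 ^ (K0 + 1) := (Nat.lt_succ_self K0).trans (Nat.lt_pow_self (by norm_num))
        exact_mod_cast h3
      linarith
    obtain ⟨c, h0, h1, h2⟩ := exists_min (r P) (r_pos P) K0
    refine ⟨c, ?_⟩
    filter_upwards [Iio_mem_nhds (show x < x + 1 by linarith)] with y hy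
    refine ⟨h0, h1, h2 0 (Nat.zero_le _), fun K hK => h2 K ?_⟩
    by_contra hcon
    push Not at hcon
    have h3 := U_mono P hcon.le
    have h4 : U P K0 / (2 * P.L) ≤ U P K / (2 * P.L) := by gcongr
    have : y < x + 1 := hy
    linarith

/-- the small factor of the weight -/
noncomputable def ps : C(ℝ, ℝ) := (exists_psi P).choose

lemma ps_spec (t : ℝ) : 0 < ps P t ∧ ps P t ≤ 1 ∧ ps P t ≤ r P 0 ∧
    ∀ K, U P K / (2 * P.L) ≤ t → ps P t ≤ r P K := (exists_psi P).choose_spec t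

/-- the weight -/
noncomputable def om (t : ℝ) : ℝ := min t 1 * ps P t + 9 * Metric.infDist t (Z P)

lemma zero_mem_Z : (0 : ℝ) ∈ Z P := by
  simp only [Z, mem_compl_iff, mem_iUnion, not_exists, mem_Ioo, not_and, not_lt]
  intro j hj
  linarith [a_pos P j]

lemma continuous_om : Continuous (om P) := by
  unfold om
  have h1 : Continuous fun t => Metric.infDist t (Z P) := Metric.continuous_infDist_pt (Z P)
  have h2 : Continuous (ps P) := (ps P).continuous
  fun_prop

lemma om_nonneg (t : ℝ) (ht : 0 ≤ t) : 0 ≤ om P t := by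
  unfold om
  have h1 : 0 ≤ min t 1 := le_min ht zero_le_one
  have h2 : 0 ≤ Metric.infDist t (Z P) := Metric.infDist_nonneg
  have h3 := (ps_spec P t).1
  positivity

lemma om_pos (t : ℝ) (ht : 0 < t) : 0 < om P t := by
  unfold om
  have h1 : 0 < min t 1 := lt_min ht one_pos
  have h2 : 0 ≤ Metric.infDist t (Z P) := Metric.infDist_nonneg
  have h3 := (ps_spec P t).1
  positivity

lemma om_zero : om P 0 = 0 := by
  unfold om
  rw [Metric.infDist_zero_of_mem (zero_mem_Z P)]
  simp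

lemma om_window (k : ℕ) (t : ℝ) (ht : t ∈ Icc (2 * a P k) (3 * a P k)) :
    1 / a P k ≤ om P t / t ^ 2 := by
  have ha := a_pos P k
  have h1 : a P k ≤ Metric.infDist t (Z P) := by
    rw [Metric.le_infDist ⟨0, zero_mem_Z P⟩]
    intro y hy
    simp only [Z, mem_compl_iff, mem_iUnion, not_exists, mem_Ioo, not_and, not_lt] at hy
    by_cases h : a P k < y
    · have := hy k h
      rw [Real.dist_eq, abs_sub_comm, le_abs]
      left; linarith [ht.2]
    · rw [Real.dist_eq, le_abs]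
      left; linarith [ht.1]
  have ht0 : 0 < t := by linarith [ht.1]
  have h2 : 9 * a P k ≤ om P t := by
    unfold om
    have h3 : 0 ≤ min t 1 := le_min ht0.le zero_le_one
    have h4 := (ps_spec P t).1
    have h5 : 0 ≤ min t 1 * ps P t := by positivity
    linarith
  rw [div_le_div_iff₀ ha (by positivity)]
  have h5 : t ^ 2 ≤ (3 * a P k) ^ 2 := pow_le_pow_left₀ ht0.le ht.2 2
  nlinarith

lemma integral_condition : ∫⁻ t in Ioi (1 : ℝ), ENNReal.ofReal (om P t / t ^ 2) = ∞ := by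
  have ha1 : ∀ k, 1 < 2 * a P k := fun k => by linarith [half_U_le_a P k, U_four P k]
  have hdisj : Pairwise (Function.onFun Disjoint fun k => Ioo (2 * a P k) (3 * a P k)) := by
    intro i j hij
    rw [Function.onFun, Set.disjoint_left]
    intro t hi hj
    rcases lt_or_gt_of_ne hij with h | h
    · have h1 := a_mono P (Nat.succ_le_of_lt h)
      have h2 := a_succ P i
      have := a_pos P i
      have := a_pos P j
      linarith [hi.2, hj.1]
    · have h1 := a_mono P (Nat.succ_le_of_lt h)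
      have h2 := a_succ P j
      have := a_pos P i
      have := a_pos P j
      linarith [hi.1, hj.2]
  have hsub : (⋃ k, Ioo (2 * a P k) (3 * a P k)) ⊆ Ioi (1 : ℝ) := by
    apply iUnion_subset
    intro k t ht
    exact lt_trans (ha1 k) ht.1
  have h1 : ∫⁻ t in (⋃ k, Ioo (2 * a P k) (3 * a P k)), ENNReal.ofReal (om P t / t ^ 2)
      ≤ ∫⁻ t in Ioi (1 : ℝ), ENNReal.ofReal (om P t / t ^ 2) := lintegral_mono_set hsub
  rw [lintegral_iUnion (fun k => measurableSet_Ioo) hdisj] at h1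
  have h2 : ∀ k, (1 : ℝ≥0∞) ≤ ∫⁻ t in Ioo (2 * a P k) (3 * a P k), ENNReal.ofReal (om P t / t ^ 2) := by
    intro k
    calc (1 : ℝ≥0∞) = ENNReal.ofReal (1 / a P k) * volume (Ioo (2 * a P k) (3 * a P k)) := by
          rw [Real.volume_Ioo, ← ENNReal.ofReal_mul (by have := a_pos P k; positivity)]
          have := (a_pos P k).ne'
          rw [show 1 / a P k * (3 * a P k - 2 * a P k) = 1 by field_simp; norm_num]
          simp
      _ = ∫⁻ t in Ioo (2 * a P k) (3 * a P k), ENNReal.ofReal (1 / a P k) := by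
          rw [setLIntegral_const]
      _ ≤ _ := by
          apply setLIntegral_mono' measurableSet_Ioo
          intro t ht
          exact ENNReal.ofReal_le_ofReal (om_window P k t ⟨ht.1.le, ht.2.le⟩)
  have h3 : (∞ : ℝ≥0∞) ≤ ∑' k, ∫⁻ t in Ioo (2 * a P k) (3 * a P k), ENNReal.ofReal (om P t / t ^ 2) := by
    calc (∞ : ℝ≥0∞) = ∑' _ : ℕ, (1 : ℝ≥0∞) := (ENNReal.tsum_const_eq_top_of_ne_zero one_ne_zero).symm
      _ ≤ _ := ENNReal.tsum_le_tsum h2
  exact top_le_iff.1 (h3.trans h1)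

lemma card_B (k : ℕ) : (B P k).card ≤ 3 ^ k := by
  induction k with
  | zero => simp [B]
  | succ k ih =>
    simp only [B]
    calc _ ≤ (B P k ∪ (B P k).image (fun b => b + r P k)).card +
          ((B P k).image (fun b => b - r P k)).card := Finset.card_union_le _ _
      _ ≤ (B P k).card + ((B P k).image (fun b => b + r P k)).card +
          ((B P k).image (fun b => b - r P k)).card :=
          Nat.add_le_add_right (Finset.card_union_le _ _) _
      _ ≤ (B P k).card + (B P k).card + (B P k).card :=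
          Nat.add_le_add (Nat.add_le_add_left Finset.card_image_le _) Finset.card_image_le
      _ ≤ 3 ^ (k + 1) := by rw [pow_succ]; omega

lemma volume_G (k : ℕ) : volume (G P k) ≤ ENNReal.ofReal (2 * 3 ^ k * r P k) := by
  have hr := r_pos P k
  calc volume (G P k) ≤ ∑ b ∈ B P k, volume (Ioo (b - r P k) (b + r P k)) := by
        unfold G; exact measure_biUnion_finset_le _ _
    _ = ∑ b ∈ B P k, ENNReal.ofReal (2 * r P k) := by
        refine Finset.sum_congr rfl fun b _ => ?_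
        rw [Real.volume_Ioo]; congr 1; ring
    _ = ((B P k).card : ℝ≥0∞) * ENNReal.ofReal (2 * r P k) := by rw [Finset.sum_const, nsmul_eq_mul]
    _ ≤ ((3 ^ k : ℕ) : ℝ≥0∞) * ENNReal.ofReal (2 * r P k) := by
        gcongr
        exact card_B P k
    _ = ENNReal.ofReal (2 * 3 ^ k * r P k) := by
        rw [← ENNReal.ofReal_natCast, ← ENNReal.ofReal_mul (by positivity)]
        congr 1
        push_cast
        ring

lemma tsum_volume_G : ∑' k, volume (G P k) ≤ ENNReal.ofReal (2 * P.s) := by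
  have hs := P.s0
  have hsum : Summable fun k : ℕ => P.s * (1 / 2 : ℝ) ^ k := summable_geometric_two.mul_left _
  calc ∑' k, volume (G P k) ≤ ∑' k : ℕ, ENNReal.ofReal (P.s * (1 / 2 : ℝ) ^ k) :=
        ENNReal.tsum_le_tsum fun k => (volume_G P k).trans (ENNReal.ofReal_le_ofReal (r_bound P k))
    _ = ENNReal.ofReal (∑' k : ℕ, P.s * (1 / 2 : ℝ) ^ k) :=
        (ENNReal.ofReal_tsum_of_nonneg (fun k => by positivity) hsum).symm
    _ = ENNReal.ofReal (2 * P.s) := by
        rw [tsum_mul_left, tsum_geometric_two]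
        ring_nf

lemma ae_good : ∀ᵐ x : ℝ, ∃ N, ∀ j, N ≤ j → x ∉ G P j := by
  have h : ∑' k, volume (G P k) ≠ ∞ := ((tsum_volume_G P).trans_lt ENNReal.ofReal_lt_top).ne
  filter_upwards [ae_eventually_notMem h] with x hx
  exact eventually_atTop.1 hx

/-- the integrand is at most `1` -/
lemma integrand_le {x y : ℝ} (hx : ∃ N, ∀ j, N ≤ j → x ∉ G P j) (hy : ∃ N, ∀ j, N ≤ j → y ∉ G P j)
    (hx1 : x ∈ Ioo P.c P.d) (hy1 : y ∈ Ioo P.c P.d) :
    om P (|u P y - u P x| / |y - x|) / |y - x| ≤ 1 := by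
  by_cases h : u P x = u P y
  · rw [h, sub_self, abs_zero, zero_div, om_zero, zero_div]; norm_num
  · have hd : |y - x| ≤ P.L := by
      have := P.dL
      rw [abs_le]; constructor <;> linarith [hx1.1, hx1.2, hy1.1, hy1.2]
    obtain ⟨K, h1, h2, h3⟩ := quotient P hx hy hd h
    have hr := r_pos P K
    have hpos : 0 < |y - x| := by linarith
    set q := |u P y - u P x| / |y - x| with hq
    have hq0 : 0 ≤ q := by positivity
    obtain ⟨p1, p2, p3, p4⟩ := ps_spec P q
    have e1 : om P q = min q 1 * ps P q := by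
      unfold om; rw [Metric.infDist_zero_of_mem h2]; ring
    have e2 : om P q ≤ r P K := by
      rw [e1]
      have e3 : min q 1 * ps P q ≤ 1 * ps P q := by
        gcongr
        exact min_le_right _ _
      rw [one_mul] at e3
      rcases h3 with h0 | h3
      · subst h0; exact e3.trans p3
      · exact e3.trans (p4 K h3)
    rw [div_le_one hpos]
    linarith

lemma F_lt : F (om P) (u P) P.c P.d < ∞ := by
  have h1 : F (om P) (u P) P.c P.d ≤ ∫⁻ x in Ioo P.c P.d, ∫⁻ y in Ioo P.c P.d, 1 := by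
    unfold F
    apply lintegral_mono_ae
    filter_upwards [ae_restrict_of_ae (ae_good P), ae_restrict_mem measurableSet_Ioo] with x hx hx1
    apply lintegral_mono_ae
    filter_upwards [ae_restrict_of_ae (ae_good P), ae_restrict_mem measurableSet_Ioo] with y hy hy1
    calc ENNReal.ofReal (om P (|u P y - u P x| / |y - x|) / |y - x|) ≤ ENNReal.ofReal 1 :=
          ENNReal.ofReal_le_ofReal (integrand_le P hx hy hx1 hy1)
      _ = 1 := ENNReal.ofReal_one
  refine h1.trans_lt ?_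
  simp only [lintegral_const, MeasurableSet.univ, Measure.restrict_apply, univ_inter,
    Real.volume_Ioo, one_mul]
  exact ENNReal.mul_lt_top ENNReal.ofReal_lt_top ENNReal.ofReal_lt_top

/-- integrability of a gauge of the function -/
lemma gauge_lt (φ : ℝ → ℝ) (n : ℕ)
    (hφ : ∀ k, n ≤ k → |φ (U P (k + 1))| * (2 * 3 ^ k * r P k) ≤ (1 / 2) ^ k) :
    ∫⁻ x in Ioo P.c P.d, ENNReal.ofReal (φ |u P x|) < ∞ := by
  have hpt : ∀ x : ℝ, (∃ N, ∀ j, N ≤ j → x ∉ G P j) → ENNReal.ofReal (φ |u P x|) ≤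
      (ENNReal.ofReal |φ 0| + ENNReal.ofReal |φ 4|) +
        ∑' k, (G P k).indicator (fun _ => ENNReal.ofReal |φ (U P (k + 1))|) x := by
    rintro x ⟨N, hN⟩
    rw [u_eq P hN, abs_of_nonneg (uk_nonneg P N x)]
    have : ∀ m, ENNReal.ofReal (φ (uk P m x)) ≤ (ENNReal.ofReal |φ 0| + ENNReal.ofReal |φ 4|) +
        ∑ k ∈ Finset.range m, (G P k).indicator (fun _ => ENNReal.ofReal |φ (U P (k + 1))|) x := by
      intro m
      induction m with
      | zero =>
        simp only [Finset.range_zero, Finset.sum_empty, add_zero]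
        simp only [uk]
        split_ifs
        · exact (ENNReal.ofReal_le_ofReal (le_abs_self _)).trans le_self_add
        · exact (ENNReal.ofReal_le_ofReal (le_abs_self _)).trans le_add_self
      | succ m ih =>
        rw [Finset.sum_range_succ]
        by_cases hx : x ∈ G P m
        · have e : uk P (m + 1) x = U P (m + 1) := by simp only [uk, if_pos hx]
          rw [e, indicator_of_mem hx, ← add_assoc]
          exact (ENNReal.ofReal_le_ofReal (le_abs_self _)).trans le_add_self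
        · have e : uk P (m + 1) x = uk P m x := by simp only [uk, if_neg hx]
          rw [e, indicator_of_notMem hx, add_zero]
          exact ih
    refine (this N).trans ?_
    gcongr
    exact ENNReal.sum_le_tsum _
  have hsum : Summable fun k : ℕ => |φ (U P (k + 1))| * (2 * 3 ^ k * r P k) := by
    apply Summable.of_norm_bounded_eventually_nat summable_geometric_two
    filter_upwards [eventually_ge_atTop n] with k hk
    have h0 : 0 ≤ |φ (U P (k + 1))| * (2 * 3 ^ k * r P k) := by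
      have := r_pos P k
      positivity
    rw [Real.norm_of_nonneg h0]
    exact hφ k hk
  calc ∫⁻ x in Ioo P.c P.d, ENNReal.ofReal (φ |u P x|)
      ≤ ∫⁻ x in Ioo P.c P.d, ((ENNReal.ofReal |φ 0| + ENNReal.ofReal |φ 4|) +
        ∑' k, (G P k).indicator (fun _ => ENNReal.ofReal |φ (U P (k + 1))|) x) := by
        apply lintegral_mono_ae
        filter_upwards [ae_restrict_of_ae (ae_good P)] with x hx
        exact hpt x hx
    _ = (ENNReal.ofReal |φ 0| + ENNReal.ofReal |φ 4|) * volume (Ioo P.c P.d) +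
        ∑' k, ∫⁻ x in Ioo P.c P.d,
        (G P k).indicator (fun _ => ENNReal.ofReal |φ (U P (k + 1))|) x := by
        rw [lintegral_add_left measurable_const, lintegral_tsum, setLIntegral_const]
        intro k
        exact (measurable_const.indicator (measurableSet_G P k)).aemeasurable
    _ ≤ (ENNReal.ofReal |φ 0| + ENNReal.ofReal |φ 4|) * volume (Ioo P.c P.d) +
        ∑' k : ℕ, ENNReal.ofReal (|φ (U P (k + 1))| * (2 * 3 ^ k * r P k)) := by
        gcongr with k
        calc ∫⁻ x in Ioo P.c P.d, (G P k).indicator (fun _ => ENNReal.ofReal |φ (U P (k + 1))|) x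
            ≤ ∫⁻ x, (G P k).indicator (fun _ => ENNReal.ofReal |φ (U P (k + 1))|) x :=
              setLIntegral_le_lintegral _ _
          _ = ENNReal.ofReal |φ (U P (k + 1))| * volume (G P k) := by
              rw [lintegral_indicator_const (measurableSet_G P k)]
          _ ≤ ENNReal.ofReal |φ (U P (k + 1))| * ENNReal.ofReal (2 * 3 ^ k * r P k) := by
              gcongr; exact volume_G P k
          _ = ENNReal.ofReal (|φ (U P (k + 1))| * (2 * 3 ^ k * r P k)) := by
              rw [← ENNReal.ofReal_mul (abs_nonneg _)]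
    _ < ∞ := by
        apply ENNReal.add_lt_top.2 ⟨?_, hsum.tsum_ofReal_lt_top⟩
        rw [Real.volume_Ioo]
        exact ENNReal.mul_lt_top (ENNReal.add_lt_top.2 ⟨ENNReal.ofReal_lt_top, ENNReal.ofReal_lt_top⟩)
          ENNReal.ofReal_lt_top

lemma not_const : ¬ ∃ c : ℝ, ∀ᵐ x ∂(volume.restrict (Ioo P.c P.d)), u P x = c := by
  rintro ⟨c, hc⟩
  have hcd := P.cd
  rw [ae_restrict_iff' measurableSet_Ioo] at hc
  set T : Set ℝ := {x | ¬ (x ∈ Ioo P.c P.d → u P x = c)} with hT
  have hT0 : volume T = 0 := hc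
  have hS : volume (⋃ k, G P k) ≤ ENNReal.ofReal (2 * P.s) :=
    (measure_iUnion_le _).trans (tsum_volume_G P)
  have key : ∀ p q : ℝ, q - p = (P.d - P.c) / 2 → ∃ x ∈ Ioo p q, x ∉ (⋃ k, G P k) ∧ x ∉ T := by
    intro p q hpq
    by_contra hcon
    push Not at hcon
    have hsub : Ioo p q ⊆ (⋃ k, G P k) ∪ T := by
      intro x hx
      by_cases h : x ∈ ⋃ k, G P k
      · exact Or.inl h
      · exact Or.inr (hcon x hx h)
    have h1 := (measure_mono (μ := volume) hsub).trans (measure_union_le _ _)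
    rw [hT0, add_zero, Real.volume_Ioo, hpq] at h1
    have h2 := h1.trans hS
    have h3 := P.s2
    have h4 := P.s0
    rw [ENNReal.ofReal_le_ofReal_iff (by linarith)] at h2
    linarith
  obtain ⟨x, hx, hxG, hxT⟩ := key P.c ((P.c + P.d) / 2) (by ring)
  obtain ⟨y, hy, hyG, hyT⟩ := key ((P.c + P.d) / 2) P.d (by ring)
  simp only [mem_iUnion, not_exists] at hxG hyG
  have hux : u P x = c := by
    simp only [hT, mem_ofPred_eq, not_not] at hxT
    exact hxT ⟨hx.1, by linarith [hx.2]⟩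
  have huy : u P y = c := by
    simp only [hT, mem_ofPred_eq, not_not] at hyT
    exact hyT ⟨by linarith [hy.1], hy.2⟩
  rw [u_eq P (N := 0) fun j _ => hxG j] at hux
  rw [u_eq P (N := 0) fun j _ => hyG j] at huy
  simp only [uk, if_pos hx.2] at hux
  simp only [uk, if_neg (not_lt.2 hy.1.le)] at huy
  linarith

end

/-- the choice of the radii -/
lemma exists_g (φ : ℕ → ℝ → ℝ) (hφ : ∀ n, Tendsto (fun t => φ n t / t) atTop (𝓝 0)) (L s : ℝ)
    (hL : 1 ≤ L) (hs : 0 < s) : ∃ g : ℕ → ℝ → ℝ, (∀ k t, 0 < g k t) ∧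
      (∀ k t, 2 * 3 ^ k * g k t ≤ s * (1 / 2) ^ k) ∧
      ∀ k t, 0 < t → ∀ n ≤ k, |φ n (4 * L * t / g k t)| * (2 * 3 ^ k * g k t) ≤ (1 / 2) ^ k := by
  have key : ∀ k : ℕ, ∀ t : ℝ, ∃ ρ : ℝ, 0 < ρ ∧ 2 * 3 ^ k * ρ ≤ s * (1 / 2) ^ k ∧
      (0 < t → ∀ n ≤ k, |φ n (4 * L * t / ρ)| * (2 * 3 ^ k * ρ) ≤ (1 / 2) ^ k) := by
    intro k t
    by_cases ht : 0 < t
    · have hpos : ∀ᶠ ρ : ℝ in 𝓝[>] 0, 0 < ρ := self_mem_nhdsWithin
      have hsmall : ∀ᶠ ρ : ℝ in 𝓝[>] 0, 2 * 3 ^ k * ρ ≤ s * (1 / 2) ^ k := by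
        have h1 : Tendsto (fun ρ : ℝ => 2 * 3 ^ k * ρ) (𝓝[>] 0) (𝓝 (2 * 3 ^ k * 0)) :=
          (continuous_const.mul continuous_id).continuousAt.tendsto.mono_left nhdsWithin_le_nhds
        rw [mul_zero] at h1
        exact h1.eventually_le_const (by positivity)
      have hM : Tendsto (fun ρ : ℝ => 4 * L * t / ρ) (𝓝[>] 0) atTop := by
        have h1 : Tendsto (fun ρ : ℝ => ρ⁻¹) (𝓝[>] 0) atTop := tendsto_inv_nhdsGT_zero
        have h2 : 0 < 4 * L * t := by positivity
        have h3 := h1.const_mul_atTop h2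
        refine h3.congr fun ρ => ?_
        rw [div_eq_mul_inv]
      have hn : ∀ n, ∀ᶠ ρ : ℝ in 𝓝[>] 0, |φ n (4 * L * t / ρ)| * (2 * 3 ^ k * ρ) ≤ (1 / 2) ^ k := by
        intro n
        have h1 := ((hφ n).comp hM).abs.mul_const (2 * 3 ^ k * (4 * L * t))
        rw [abs_zero, zero_mul] at h1
        have h2 := h1.eventually_le_const (show (0:ℝ) < (1 / 2) ^ k by positivity)
        filter_upwards [h2, hpos] with ρ hρ hρ0
        refine le_trans (le_of_eq ?_) hρ
        have h4 : 0 < 4 * L * t / ρ := by positivity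
        simp only [Function.comp_apply]
        rw [abs_div, abs_of_pos h4]
        field_simp
      have hall : ∀ᶠ ρ : ℝ in 𝓝[>] 0, ∀ n ∈ Finset.range (k + 1),
          |φ n (4 * L * t / ρ)| * (2 * 3 ^ k * ρ) ≤ (1 / 2) ^ k :=
        (Finset.eventually_all _).2 fun n _ => hn n
      obtain ⟨ρ, h1, h2, h3⟩ := (hpos.and (hsmall.and hall)).exists
      exact ⟨ρ, h1, h2, fun _ n hnk => h3 n (Finset.mem_range.2 (by omega))⟩
    · refine ⟨s * (1 / 2) ^ k / (2 * 3 ^ k), by positivity, le_of_eq ?_, fun h => absurd h ht⟩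
      field_simp
  choose g h1 h2 h3 using key
  exact ⟨g, h1, h2, h3⟩

lemma pow_gauge (β : ℝ) (hβ : β < 1) : Tendsto (fun t : ℝ => |t| ^ β / t) atTop (𝓝 0) := by
  have h1 := tendsto_rpow_neg_atTop (show 0 < 1 - β by linarith)
  refine h1.congr' ?_
  filter_upwards [eventually_gt_atTop 0] with t ht
  rw [abs_of_pos ht, neg_sub, Real.rpow_sub_one ht.ne']

/-- **Answer to Q1 (negative), for every interval and every gauge below `L¹`.** For all `c < d` and
every sequence of functions `φ n` with `φ n (t) = o(t)` there are a continuous `ω : [0,∞) → [0,∞)`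
with `ω(0) = 0`, `ω > 0` on `(0,∞)` and `∫_1^∞ ω(μ)/μ² dμ = ∞`, and a measurable `v` that is not
almost everywhere constant on `(c,d)`, has `∫_c^d φ n (|v|) < ∞` for every `n`, has
`∫_c^d |v|^α < ∞` for every `0 < α < 1`, and has `F_ω(v,(c,d)) < ∞`. -/
theorem result : ∀ c d : ℝ, c < d → ∀ φ : ℕ → ℝ → ℝ,
    (∀ n, Tendsto (fun t => φ n t / t) atTop (𝓝 0)) →
    ∃ ω : ℝ → ℝ, ContinuousOn ω (Ici 0) ∧ (∀ t, 0 ≤ t → 0 ≤ ω t) ∧ ω 0 = 0 ∧
    (∀ t, 0 < t → 0 < ω t) ∧ ∫⁻ t in Ioi (1 : ℝ), ENNReal.ofReal (ω t / t ^ 2) = ∞ ∧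
    ∃ v : ℝ → ℝ, Measurable v ∧
      (¬ ∃ k : ℝ, ∀ᵐ x ∂(volume.restrict (Ioo c d)), v x = k) ∧
      (∀ n, ∫⁻ x in Ioo c d, ENNReal.ofReal (φ n |v x|) < ∞) ∧
      (∀ α : ℝ, 0 < α → α < 1 → ∫⁻ x in Ioo c d, ENNReal.ofReal (|v x| ^ α) < ∞) ∧
      F ω v c d < ∞ := by
  intro c d hcd φ hφ
  set L := max 1 (d - c) with hL
  set s := min (1 / 8) ((d - c) / 8) with hs
  have hL1 : 1 ≤ L := le_max_left _ _
  have hs0 : 0 < s := lt_min (by norm_num) (by linarith)
  let be : ℕ → ℝ := fun n => ((n : ℝ) + 1) / ((n : ℝ) + 2)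
  have hbe : ∀ n, be n < 1 := by
    intro n
    simp only [be]
    rw [div_lt_one (by positivity)]
    linarith
  let Φ : ℕ → ℝ → ℝ := fun n => if n % 2 = 0 then φ (n / 2) else fun t => |t| ^ (be (n / 2))
  have hΦ : ∀ n, Tendsto (fun t => Φ n t / t) atTop (𝓝 0) := by
    intro n
    simp only [Φ]
    split_ifs
    · exact hφ _
    · exact pow_gauge _ (hbe _)
  obtain ⟨g, g0, g1, g2⟩ := exists_g Φ hΦ L s hL1 hs0
  let P : Pm := ⟨c, d, L, s, g, hcd, hL1, le_max_right _ _, hs0, min_le_left _ _, min_le_right _ _, g0, g1⟩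
  have hg : ∀ n k, n ≤ k → |Φ n (U P (k + 1))| * (2 * 3 ^ k * r P k) ≤ (1 / 2) ^ k :=
    fun n k hnk => g2 k (U P k) (U_pos P k) n hnk
  refine ⟨om P, (continuous_om P).continuousOn, om_nonneg P, om_zero P, om_pos P,
    integral_condition P, u P, measurable_u P, not_const P, fun n => ?_, fun α h0 h1 => ?_, F_lt P⟩
  · have h2 : Φ (2 * n) = φ n := by
      simp only [Φ]
      rw [if_pos (by omega)]
      congr 1
      omega
    have h3 := gauge_lt P (Φ (2 * n)) (2 * n) (fun k hk => hg _ k hk)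
    rw [h2] at h3
    exact h3
  · obtain ⟨n, hn⟩ : ∃ n : ℕ, α ≤ be n := by
      obtain ⟨n, hn⟩ := exists_nat_gt (1 / (1 - α))
      refine ⟨n, ?_⟩
      have h2 : 0 < 1 - α := by linarith
      rw [div_lt_iff₀ h2] at hn
      simp only [be]
      rw [le_div_iff₀ (by positivity)]
      nlinarith
    have h2 : Φ (2 * n + 1) = fun t => |t| ^ (be n) := by
      simp only [Φ]
      rw [if_neg (by omega)]
      have : (2 * n + 1) / 2 = n := by omega
      rw [this]
    have h3 := gauge_lt P (Φ (2 * n + 1)) (2 * n + 1) (fun k hk => hg _ k hk)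
    rw [h2] at h3
    have h3' : ∫⁻ x in Ioo c d, ENNReal.ofReal (|u P x| ^ (be n)) < ∞ := by
      have : ∫⁻ x in Ioo c d, ENNReal.ofReal (|(|u P x|)| ^ (be n)) < ∞ := h3
      simpa only [abs_abs] using this
    have h4 : ∫⁻ x in Ioo c d, ENNReal.ofReal (|u P x| ^ α)
        ≤ ∫⁻ x in Ioo c d, (1 + ENNReal.ofReal (|u P x| ^ (be n))) := by
      apply lintegral_mono
      intro x
      show ENNReal.ofReal (|u P x| ^ α) ≤ 1 + ENNReal.ofReal (|u P x| ^ (be n))
      rcases le_total |u P x| 1 with h | h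
      · calc ENNReal.ofReal (|u P x| ^ α) ≤ ENNReal.ofReal 1 :=
              ENNReal.ofReal_le_ofReal (Real.rpow_le_one (abs_nonneg _) h h0.le)
          _ = 1 := ENNReal.ofReal_one
          _ ≤ _ := le_self_add
      · exact (ENNReal.ofReal_le_ofReal (Real.rpow_le_rpow_of_exponent_le h hn)).trans le_add_self
    have h5 : ∫⁻ x in Ioo c d, (1 + ENNReal.ofReal (|u P x| ^ (be n))) =
        (∫⁻ _x in Ioo c d, (1:ℝ≥0∞)) + ∫⁻ x in Ioo c d, ENNReal.ofReal (|u P x| ^ (be n)) :=
      lintegral_add_left measurable_const _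
    refine h4.trans_lt ?_
    rw [h5]
    refine ENNReal.add_lt_top.2 ⟨?_, h3'⟩
    rw [setLIntegral_const, Real.volume_Ioo, one_mul]
    exact ENNReal.ofReal_lt_top

end Pool.Agent.Results.MP_1dbcb3_an.AllGauges
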