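import Pool.Agent.Y893.NL.Main

/-!
# Nonlocal difference-quotient functionals: no summability below `L¹` forces divergence

For **every** sequence of gauges `φ n` with common `liminf_{t → ∞} φ(t)/t = 0`, every kernel `w` that
is bounded away from the origin, every growth function `Ψ` and every bounded interval `(a,b)` there
are a continuous weight `ω` with (P) and (I), at least `Ψ` on intervals `[α, n α]` for all `n`, and a
non-constant measurable `v` with `∫ φ n (|v|) < ∞` for all `n`, `∫ |v|^s < ∞` for all `s < 1` and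
`F_ω(v,(a,b)) < ∞`; even the integrand with `w(|y-x|)` instead of `1/|y-x|` is bounded.
The construction is the one of the starting file `SummableCounterexample`, made parametric
(`Pool/Agent/Y893/NL`); the version for sequences of gauges `o(t)` is also due to helper852.
-/

set_option autoImplicit false

open MeasureTheory Set Filter Topology
open scoped ENNReal

namespace Pool.Agent.Results.MP_1dbcb3_an.GaugesKernelsGrowth

open Pool.Agent.Y893.NL

/-- The functional `F_ω(u,(a,b)) = ∬_{(a,b)²} ω(|u(y)-u(x)|/|y-x|) dx dy / |y-x|`. -/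
noncomputable def F (ω : ℝ → ℝ) (v : ℝ → ℝ) (a b : ℝ) : ℝ≥0∞ :=
  ∫⁻ x in Ioo a b, ∫⁻ y in Ioo a b, ENNReal.ofReal (ω (|v y - v x| / |y - x|) / |y - x|)

/-- **Answer to Q1 (negative), strong form.** `φ n` are functions with common `liminf φ(t)/t ≤ 0` at
infinity (for instance one function with `liminf φ(t)/t ≤ 0`, or a sequence of functions `o(t)`),
`Ψ` any function bounded above on bounded sets, `w` any function bounded above away from `0`,
`(a,b)` any bounded interval. -/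
theorem result (a b : ℝ) (hab : a < b) (φ : ℕ → ℝ → ℝ) (Ψ w : ℝ → ℝ)
    (hφ : ∀ ε : ℝ, 0 < ε → ∀ (n : ℕ) (T : ℝ), ∃ t, T ≤ t ∧ ∀ j ≤ n, φ j t ≤ ε * t)
    (hΨ : ∀ M : ℝ, ∃ C : ℝ, ∀ t, 0 ≤ t → t ≤ M → Ψ t ≤ C)
    (hw : ∀ δ : ℝ, 0 < δ → ∃ C : ℝ, ∀ h, δ ≤ h → h ≤ b - a → w h ≤ C) :
    ∃ ω : ℝ → ℝ, Continuous ω ∧ (∀ t, 0 ≤ t → 0 ≤ ω t) ∧ ω 0 = 0 ∧
      (∀ t, 0 < t → 0 < ω t) ∧ ∫⁻ t in Ioi (1 : ℝ), ENNReal.ofReal (ω t / t ^ 2) = ∞ ∧
      (∀ n : ℕ, ∃ α : ℝ, (n : ℝ) ≤ α ∧ ∀ t, α ≤ t → t ≤ n * α → Ψ t ≤ ω t) ∧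
      ∃ v : ℝ → ℝ, Measurable v ∧ (∀ x, 0 ≤ v x) ∧
        (¬ ∃ c : ℝ, ∀ᵐ x ∂(volume.restrict (Ioo a b)), v x = c) ∧
        (∀ n : ℕ, ∫⁻ x in Ioo a b, ENNReal.ofReal (φ n |v x|) < ∞) ∧
        (∀ s : ℝ, 0 < s → s < 1 → ∫⁻ x in Ioo a b, ENNReal.ofReal (|v x| ^ s) < ∞) ∧
        F ω v a b < ∞ ∧
        ∀ᵐ x ∂(volume.restrict (Ioo a b)), ∀ᵐ y ∂(volume.restrict (Ioo a b)),
          ω (|v y - v x| / |y - x|) * w |y - x| ≤ 1 := by
  -- the gauge
  set φ' : ℕ → ℝ → ℝ := fun n t => max (φ n t) (t / (1 + Real.log (1 + t))) with hφ'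
  have h1 : ∀ ε : ℝ, 0 < ε → ∀ (n : ℕ) (T : ℝ), ∃ t, T ≤ t ∧ ∀ j ≤ n, φ' j t ≤ ε * t := by
    intro ε hε n T
    obtain ⟨T0, hT0, hT1⟩ := log_gauge ε hε
    obtain ⟨t, ht1, ht2⟩ := hφ ε hε n (max T T0)
    exact ⟨t, (le_max_left _ _).trans ht1, fun j hj =>
      max_le (ht2 j hj) (hT1 t ((le_max_right _ _).trans ht1))⟩
  obtain ⟨D, hDc, hDl, hD⟩ := exists_dat ((a + b) / 2) (b - a) (by linarith) φ' h1
  -- the weight
  have h2 : ∀ M : ℝ, ∃ C : ℝ, ∀ t, 0 ≤ t → t ≤ M → max (Ψ t) t ≤ C := by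
    intro M
    obtain ⟨C, hC⟩ := hΨ M
    exact ⟨max C M, fun t ht1 ht2 => max_le_max (hC t ht1 ht2) ht2⟩
  have h3 : ∀ δ : ℝ, 0 < δ → ∃ C : ℝ, ∀ h, δ ≤ h → h ≤ D.l → max (w h) (1 / h) ≤ C := by
    intro δ hδ
    obtain ⟨C, hC⟩ := hw δ hδ
    refine ⟨max C (1 / δ), fun h hh1 hh2 => max_le_max (hC h hh1 (hDl ▸ hh2)) ?_⟩
    exact one_div_le_one_div_of_le hδ hh1
  obtain ⟨ω, hω1, hω2, hω3, hω4, hω5, hω6⟩ :=
    D.exists_weight (fun t => max (Ψ t) t) (fun h => max (w h) (1 / h)) h2 h3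
  have hIoo : Ioo (D.c - D.l / 2) (D.c + D.l / 2) = Ioo a b := by
    rw [hDc, hDl]
    congr 1 <;> ring
  have hbound := D.double_lt ω _ hω3 hω6 a b (by rw [hDl])
  have hgauge : ∀ n, ∫⁻ x in Ioo a b, ENNReal.ofReal (φ' n |D.u x|) < ∞ := by
    intro n
    obtain ⟨C, hC⟩ := hD n
    exact D.gauge_lt (φ' n) (Ioo a b) (by simp) C hC
  refine ⟨ω, hω1, hω2, hω3, hω4, ?_, ?_, D.u, D.measurable_u, ?_, ?_, ?_, ?_, ?_, ?_⟩
  · exact D.integral_condition ω fun t ht1 ht2 => (le_max_right _ _).trans (hω5 t ht1 ht2)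
  · intro n
    obtain ⟨α, hα1, hα2, hα3⟩ := D.windows n
    exact ⟨α, hα1, fun t ht1 ht2 =>
      (le_max_left _ _).trans (hω5 t (hα2.trans ht1) (hα3 t ht1 ht2))⟩
  · intro x
    exact ENNReal.toReal_nonneg
  · have := D.not_const
    rwa [hIoo] at this
  · intro n
    refine lt_of_le_of_lt (lintegral_mono fun x => ?_) (hgauge n)
    exact ENNReal.ofReal_le_ofReal (le_max_left _ _)
  · intro s hs0 hs1
    have h4 : ∀ x, ENNReal.ofReal (|D.u x| ^ s) ≤
        1 + ENNReal.ofReal (1 + 2 / (1 - s)) * ENNReal.ofReal (φ' 0 |D.u x|) := by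
      intro x
      have h5 := rpow_le_gauge s hs0 hs1 |D.u x| (abs_nonneg _)
      have h6 : (0 : ℝ) < 1 - s := by linarith
      have h7 : 0 ≤ 1 + 2 / (1 - s) := by positivity
      have h8 : |D.u x| / (1 + Real.log (1 + |D.u x|)) ≤ φ' 0 |D.u x| := le_max_right _ _
      calc ENNReal.ofReal (|D.u x| ^ s) ≤ ENNReal.ofReal (1 + (1 + 2 / (1 - s)) * φ' 0 |D.u x|) := by
            apply ENNReal.ofReal_le_ofReal
            refine h5.trans ?_
            gcongr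
        _ ≤ ENNReal.ofReal 1 + ENNReal.ofReal ((1 + 2 / (1 - s)) * φ' 0 |D.u x|) :=
            ENNReal.ofReal_add_le
        _ = _ := by rw [ENNReal.ofReal_one, ENNReal.ofReal_mul h7]
    calc ∫⁻ x in Ioo a b, ENNReal.ofReal (|D.u x| ^ s)
        ≤ ∫⁻ x in Ioo a b, (1 + ENNReal.ofReal (1 + 2 / (1 - s)) *
            ENNReal.ofReal (φ' 0 |D.u x|)) := lintegral_mono h4
      _ = volume (Ioo a b) + ENNReal.ofReal (1 + 2 / (1 - s)) *
            ∫⁻ x in Ioo a b, ENNReal.ofReal (φ' 0 |D.u x|) := by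
          rw [lintegral_add_left measurable_const, lintegral_const_mul' _ _ ENNReal.ofReal_ne_top]
          simp
      _ < ∞ := by
          apply ENNReal.add_lt_top.2
          exact ⟨by simp, ENNReal.mul_lt_top ENNReal.ofReal_lt_top (hgauge 0)⟩
  · have h5 : F ω D.u a b ≤ ∫⁻ x in Ioo a b, ∫⁻ y in Ioo a b, 1 := by
      unfold F
      apply lintegral_mono_ae
      filter_upwards [hbound] with x hx
      apply lintegral_mono_ae
      filter_upwards [hx] with y hy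
      rw [← ENNReal.ofReal_one]
      apply ENNReal.ofReal_le_ofReal
      have h6 : 0 ≤ ω (|D.u y - D.u x| / |y - x|) := hω2 _ (by positivity)
      calc ω (|D.u y - D.u x| / |y - x|) / |y - x| =
          ω (|D.u y - D.u x| / |y - x|) * (1 / |y - x|) := by rw [mul_one_div]
        _ ≤ ω (|D.u y - D.u x| / |y - x|) * max (w |y - x|) (1 / |y - x|) :=
            mul_le_mul_of_nonneg_left (le_max_right _ _) h6
        _ ≤ 1 := hy
    refine h5.trans_lt ?_
    simp only [lintegral_const, one_mul, Measure.restrict_apply MeasurableSet.univ, univ_inter]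
    exact ENNReal.mul_lt_top (by simp) (by simp)
  · filter_upwards [hbound] with x hx
    filter_upwards [hx] with y hy
    have h6 : 0 ≤ ω (|D.u y - D.u x| / |y - x|) := hω2 _ (by positivity)
    exact (mul_le_mul_of_nonneg_left (le_max_left _ _) h6).trans hy

end Pool.Agent.Results.MP_1dbcb3_an.GaugesKernelsGrowth
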